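import Mathlib

/-!
# Monotonicity of an alternating hyperbolic cosecant series

`S(r) = ∑_{k ≥ 1} (-1)^(k+1) sinh y / sinh (k y)`, `cosh y = r`, is strictly increasing on `[1, ∞)`.

Outline.  With `v = exp (-y)` one has `S = F(v) = ∑_{n ≥ 0} T_n(v)`,
`T_n(v) = v^(2n) (1 - v^2) / (1 + v^(2n+1))`.  Put `t = v^(2n)` and
`M_n = t^2 ((1+v+v^2+t v^2)(1+t v) - (2n+1)(1-v^2)) / ((1+t v)^2 (1+t)(1+t v^2))`; then
`v T_n' = p_n - p_(n+1) - (1-v)^2 M_n` with `p_n = 2 n t / (1+t)`, so that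
`v F' = -(1-v)^2 ∑ M_n`, and it has to be shown that `∑ M_n > 0`.  The inequality
`(2n+1)(1-v^2) t ≤ 1 - v^2 t^2` gives `M_n ≥ m_n := t/(1+tv) - 2t(1-tv)/((1+tv)(1+t)(1+tv^2))`.
For `v ≤ 1/2` one uses `M_0 = v/(1+v^2)` and `m_n ≥ -v^(2n)`, and for `v ≥ 1/2` the inequality
`(1-v^2) m_n ≥ Q(v^(2n)) - Q(v^(2n+2))` with `Q(t) = 8t/9 - 2t^2/9 + 2(x^2-x) + x/4`,
`x = 1/(1+t)`, and `Q(1) - Q(0) = 1/24`.
-/

set_option autoImplicit false

namespace Pool.Agent.Results.MP_913ab3_an.Monotone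

open Filter Topology Set

/-- `S(r)` for `r > 1`, with `y = arcosh r`; the index `k` of the problem is `k + 1` here. -/
noncomputable def S₀ (r : ℝ) : ℝ :=
  ∑' k : ℕ, (-1 : ℝ) ^ k * (Real.sinh (Real.arcosh r) / Real.sinh ((k + 1 : ℕ) * Real.arcosh r))

/-- The function `S` on `[1, ∞)`, with `S(1) = lim_{r → 1+} S(r)`. -/
noncomputable def S (r : ℝ) : ℝ := if 1 < r then S₀ r else limUnder (𝓝[>] (1 : ℝ)) S₀

/-- the terms in the variable `v = exp (-y)` -/
noncomputable def T (n : ℕ) (v : ℝ) : ℝ := v ^ (2 * n) * (1 - v ^ 2) / (1 + v ^ (2 * n) * v)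

noncomputable def T' (n : ℕ) (v : ℝ) : ℝ :=
  ((2 * n * v ^ (2 * n) / v) * (1 - v ^ 2) - 2 * v * v ^ (2 * n)) / (1 + v ^ (2 * n) * v)
    - (v ^ (2 * n)) ^ 2 * (1 - v ^ 2) * (1 + 2 * n) / (1 + v ^ (2 * n) * v) ^ 2

lemma hasDerivAt_pow' (n : ℕ) {v : ℝ} (hv : 0 < v) :
    HasDerivAt (fun v : ℝ => v ^ (2 * n)) (2 * n * v ^ (2 * n) / v) v := by
  have h := hasDerivAt_pow (2 * n) v
  refine h.congr_deriv ?_
  rcases Nat.eq_zero_or_pos n with rfl | hn
  · simp
  · have : v ^ (2 * n) = v ^ (2 * n - 1) * v := by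
      rw [← pow_succ]; congr 1; omega
    rw [this]
    push_cast
    field_simp

lemma hasDerivAt_T (n : ℕ) {v : ℝ} (hv : 0 < v) : HasDerivAt (T n) (T' n v) v := by
  have h1 := hasDerivAt_pow' n hv
  have h2 : HasDerivAt (fun v : ℝ => 1 - v ^ 2) (-(2 * v)) v := by
    have := (hasDerivAt_pow 2 v).const_sub 1
    simpa using this
  have h3 : HasDerivAt (fun v : ℝ => 1 + v ^ (2 * n) * v)
      (2 * n * v ^ (2 * n) / v * v + v ^ (2 * n) * 1) v := by
    have := (h1.mul (hasDerivAt_id' v)).const_add 1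
    exact this
  have hpos : 0 < 1 + v ^ (2 * n) * v := by positivity
  have h4 := (h1.mul h2).div h3 hpos.ne'
  have he : T n = (fun v : ℝ => v ^ (2 * n) * (1 - v ^ 2)) / (fun v : ℝ => 1 + v ^ (2 * n) * v) := by
    funext x; simp [T]
  rw [he]
  refine h4.congr_deriv ?_
  simp only [T', Pi.mul_apply]
  generalize v ^ (2 * n) = t at *
  field_simp
  ring

lemma pow_bounds (n : ℕ) {v : ℝ} (h0 : 0 < v) (h1 : v < 1) :
    0 < v ^ (2 * n) ∧ v ^ (2 * n) ≤ 1 :=
  ⟨by positivity, pow_le_one₀ h0.le h1.le⟩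

/-- a summable bound for the derivatives on `(0, ρ)` -/
lemma T'_bound (n : ℕ) {ρ v : ℝ} (h0 : 0 < v) (hv : v < ρ) (hρ : ρ < 1) :
    ‖T' n v‖ ≤ (6 * n + 3) * ρ ^ n := by
  have hv1 : v < 1 := hv.trans hρ
  obtain ⟨ht0, ht1⟩ := pow_bounds n h0 hv1
  have hρ0 : 0 < ρ := h0.trans hv
  -- `v^(2n)/v * n ≤ n ρ^n`
  have hA : 2 * (n : ℝ) * v ^ (2 * n) / v ≤ 2 * n * ρ ^ n := by
    rcases Nat.eq_zero_or_pos n with rfl | hn
    · simp
    · have e : v ^ (2 * n) = v ^ (2 * n - 1) * v := by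
        rw [← pow_succ]; congr 1; omega
      rw [e, mul_div_assoc, mul_div_cancel_right₀ _ h0.ne']
      have h2 : v ^ (2 * n - 1) ≤ ρ ^ n := by
        calc v ^ (2 * n - 1) ≤ v ^ n := pow_le_pow_of_le_one h0.le hv1.le (by omega)
          _ ≤ ρ ^ n := pow_le_pow_left₀ h0.le hv.le n
      exact mul_le_mul_of_nonneg_left h2 (by positivity)
  have hB : v ^ (2 * n) ≤ ρ ^ n := by
    calc v ^ (2 * n) ≤ v ^ n := pow_le_pow_of_le_one h0.le hv1.le (by omega)
      _ ≤ ρ ^ n := pow_le_pow_left₀ h0.le hv.le n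
  have hA0 : 0 ≤ 2 * (n : ℝ) * v ^ (2 * n) / v := by positivity
  have hP : 0 < ρ ^ n := by positivity
  unfold T'
  generalize hX : 2 * (n : ℝ) * v ^ (2 * n) / v = X at *
  generalize hY : v ^ (2 * n) = t at *
  have hD : 1 ≤ 1 + t * v := by nlinarith
  have hv2 : 0 ≤ 1 - v ^ 2 ∧ 1 - v ^ 2 ≤ 1 := by constructor <;> nlinarith
  have b1 : |(X * (1 - v ^ 2) - 2 * v * t) / (1 + t * v)| ≤ 2 * n * ρ ^ n + 2 * ρ ^ n := by
    rw [abs_div, abs_of_pos (by linarith : (0 : ℝ) < 1 + t * v)]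
    refine (div_le_self (abs_nonneg _) hD).trans ?_
    refine (abs_sub _ _).trans ?_
    have c1 : |X * (1 - v ^ 2)| ≤ 2 * n * ρ ^ n := by
      rw [abs_of_nonneg (mul_nonneg hA0 hv2.1)]
      nlinarith
    have c2 : |2 * v * t| ≤ 2 * ρ ^ n := by
      rw [abs_of_nonneg (by positivity)]
      nlinarith
    linarith
  have b2 : |t ^ 2 * (1 - v ^ 2) * (1 + 2 * n) / (1 + t * v) ^ 2| ≤ (1 + 2 * n) * ρ ^ n := by
    have hn0 : (0 : ℝ) ≤ 1 + 2 * n := by positivity
    rw [abs_of_nonneg (by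
      apply div_nonneg
      · exact mul_nonneg (mul_nonneg (by positivity) hv2.1) hn0
      · positivity)]
    refine (div_le_self ?_ ?_).trans ?_
    · exact mul_nonneg (mul_nonneg (by positivity) hv2.1) hn0
    · nlinarith
    · have d1 : t ^ 2 * (1 - v ^ 2) ≤ ρ ^ n := by nlinarith [mul_nonneg ht0.le ht0.le]
      nlinarith
  rw [Real.norm_eq_abs]
  refine (abs_sub _ _).trans ?_
  nlinarith

lemma summable_T {v : ℝ} (h0 : 0 < v) (h1 : v < 1) : Summable fun n => T n v := by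
  have hg : Summable fun n : ℕ => (v ^ 2) ^ n :=
    summable_geometric_of_lt_one (by positivity) (by nlinarith)
  refine Summable.of_nonneg_of_le ?_ ?_ hg
  · intro n
    have := pow_bounds n h0 h1
    unfold T
    apply div_nonneg
    · exact mul_nonneg this.1.le (by nlinarith)
    · nlinarith [mul_pos this.1 h0]
  · intro n
    have := pow_bounds n h0 h1
    unfold T
    rw [← pow_mul]
    have hD : 1 ≤ 1 + v ^ (2 * n) * v := by nlinarith [mul_pos this.1 h0]
    refine (div_le_self (mul_nonneg this.1.le (by nlinarith)) hD).trans ?_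
    nlinarith [this.1, this.2, sq_nonneg v]

lemma summable_bound {ρ : ℝ} (h0 : 0 < ρ) (h1 : ρ < 1) :
    Summable fun n : ℕ => (6 * (n : ℝ) + 3) * ρ ^ n := by
  have a : Summable fun n : ℕ => (n : ℝ) * ρ ^ n := by
    have := summable_pow_mul_geometric_of_norm_lt_one 1
      (r := ρ) (by rw [Real.norm_eq_abs, abs_of_pos h0]; exact h1)
    simpa using this
  have b : Summable fun n : ℕ => ρ ^ n := summable_geometric_of_lt_one h0.le h1
  have := (a.mul_left 6).add (b.mul_left 3)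
  refine this.congr fun n => ?_
  ring

noncomputable def F (v : ℝ) : ℝ := ∑' n, T n v

lemma hasDerivAt_F {v : ℝ} (h0 : 0 < v) (h1 : v < 1) :
    HasDerivAt F (∑' n, T' n v) v ∧ Summable fun n => T' n v := by
  obtain ⟨ρ, hρ1, hρ2⟩ := exists_between h1
  have hρ0 : 0 < ρ := h0.trans hρ1
  constructor
  · refine hasDerivAt_tsum_of_isPreconnected (u := fun n : ℕ => (6 * (n : ℝ) + 3) * ρ ^ n)
      (t := Ioo 0 ρ) (summable_bound hρ0 hρ2) isOpen_Ioo isPreconnected_Ioo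
      (fun n y hy => hasDerivAt_T n hy.1) (fun n y hy => T'_bound n hy.1 hy.2 hρ2)
      (y₀ := v) ⟨h0, hρ1⟩ (summable_T h0 h1) ⟨h0, hρ1⟩
  · exact Summable.of_norm_bounded (summable_bound hρ0 hρ2)
      (fun n => T'_bound n h0 hρ1 hρ2)

noncomputable def M (n : ℕ) (v t : ℝ) : ℝ :=
  t ^ 2 * ((1 + v + v ^ 2 + t * v ^ 2) * (1 + t * v) - (2 * n + 1) * (1 - v ^ 2)) /
    ((1 + t * v) ^ 2 * (1 + t) * (1 + t * v ^ 2))

noncomputable def p (n : ℕ) (v : ℝ) : ℝ := 2 * n * v ^ (2 * n) / (1 + v ^ (2 * n))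

lemma T'_eq (n : ℕ) {v : ℝ} (h0 : 0 < v) :
    v * T' n v = p n v - p (n + 1) v - (1 - v) ^ 2 * M n v (v ^ (2 * n)) := by
  have ht0 : 0 < v ^ (2 * n) := by positivity
  have e : v ^ (2 * (n + 1)) = v ^ (2 * n) * v ^ 2 := by rw [← pow_add]; congr 1
  unfold T' p M
  rw [e]
  push_cast
  generalize v ^ (2 * n) = t at *
  have h1 : (0 : ℝ) < 1 + t * v := by positivity
  have h2 : (0 : ℝ) < 1 + t * v ^ 2 := by positivity
  have h3 : (0 : ℝ) < 1 + t := by positivity
  field_simp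
  ring

lemma key_ineq (n : ℕ) {v : ℝ} (h0 : 0 < v) (h1 : v < 1) :
    (2 * n + 1) * (1 - v ^ 2) * v ^ (2 * n) ≤ 1 - v ^ 2 * (v ^ (2 * n)) ^ 2 := by
  induction n with
  | zero => simp
  | succ n ih =>
    have e : v ^ (2 * (n + 1)) = v ^ (2 * n) * v ^ 2 := by rw [← pow_add]; congr 1
    rw [e]
    push_cast
    generalize v ^ (2 * n) = t at *
    have hq : 0 ≤ (1 - v ^ 2) * (1 - t * v ^ 2) ^ 2 :=
      mul_nonneg (by nlinarith) (sq_nonneg _)
    nlinarith [mul_le_mul_of_nonneg_left ih (sq_nonneg v)]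

lemma M_ge (n : ℕ) {v : ℝ} (h0 : 0 < v) (h1 : v < 1) :
    v ^ (2 * n) / (1 + v ^ (2 * n) * v) - 2 * v ^ (2 * n) * (1 - v ^ (2 * n) * v) /
      ((1 + v ^ (2 * n) * v) * (1 + v ^ (2 * n)) * (1 + v ^ (2 * n) * v ^ 2)) ≤
      M n v (v ^ (2 * n)) := by
  have ht0 : 0 < v ^ (2 * n) := by positivity
  have hk := key_ineq n h0 h1
  unfold M
  generalize v ^ (2 * n) = t at *
  have h1 : (0 : ℝ) < 1 + t * v := by positivity
  have h2 : (0 : ℝ) < 1 + t * v ^ 2 := by positivity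
  have h3 : (0 : ℝ) < 1 + t := by positivity
  rw [← sub_nonneg]
  have e : t ^ 2 * ((1 + v + v ^ 2 + t * v ^ 2) * (1 + t * v) - (2 * n + 1) * (1 - v ^ 2)) /
      ((1 + t * v) ^ 2 * (1 + t) * (1 + t * v ^ 2)) -
      (t / (1 + t * v) - 2 * t * (1 - t * v) / ((1 + t * v) * (1 + t) * (1 + t * v ^ 2))) =
      t * ((1 - v ^ 2 * t ^ 2) - (2 * n + 1) * (1 - v ^ 2) * t) /
        ((1 + t * v) ^ 2 * (1 + t) * (1 + t * v ^ 2)) := by
    field_simp
    ring
  rw [e]
  apply div_nonneg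
  · exact mul_nonneg ht0.le (by linarith)
  · positivity

lemma M_zero {v : ℝ} (h0 : 0 < v) : M 0 v (v ^ (2 * 0)) = v / (1 + v ^ 2) := by
  unfold M
  simp only [mul_zero, pow_zero, Nat.cast_zero]
  field_simp
  ring

lemma M_ge_neg (n : ℕ) {v : ℝ} (h0 : 0 < v) (h1 : v < 1) :
    -v ^ (2 * n) ≤ M n v (v ^ (2 * n)) := by
  refine le_trans ?_ (M_ge n h0 h1)
  obtain ⟨ht0, ht1⟩ := pow_bounds n h0 h1
  generalize v ^ (2 * n) = t at *
  have h1' : (0 : ℝ) < 1 + t * v := by positivity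
  have h2 : (0 : ℝ) < 1 + t * v ^ 2 := by positivity
  have h3 : (0 : ℝ) < 1 + t := by positivity
  have htv : t * v < 1 := by nlinarith
  have htv0 : 0 < t * v := by positivity
  have e : t / (1 + t * v) - 2 * t * (1 - t * v) / ((1 + t * v) * (1 + t) * (1 + t * v ^ 2)) - (-t) =
      t * ((1 + t) * (1 + t * v ^ 2) - 2 * (1 - t * v) + (1 + t * v) * ((1 + t) * (1 + t * v ^ 2))) /
      ((1 + t * v) * (1 + t) * (1 + t * v ^ 2)) := by
    field_simp
    ring
  rw [← sub_nonneg, e]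
  apply div_nonneg
  · apply mul_nonneg ht0.le
    have : 1 ≤ (1 + t) * (1 + t * v ^ 2) := by nlinarith [mul_pos ht0 (sq_pos_of_pos h0)]
    nlinarith
  · positivity

/-- the telescoping function -/
noncomputable def Q (t : ℝ) : ℝ :=
  8 * t / 9 - 2 * t ^ 2 / 9 + 2 * ((1 / (1 + t)) ^ 2 - 1 / (1 + t)) + 1 / (1 + t) / 4

lemma M_ge_Q (n : ℕ) {v : ℝ} (h0 : 1 / 2 ≤ v) (h1 : v < 1) :
    Q (v ^ (2 * n)) - Q (v ^ (2 * (n + 1))) ≤ (1 - v ^ 2) * M n v (v ^ (2 * n)) := by
  have hv0 : 0 < v := by linarith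
  have hv2 : 0 < 1 - v ^ 2 := by nlinarith
  refine le_trans ?_ (mul_le_mul_of_nonneg_left (M_ge n hv0 h1) hv2.le)
  obtain ⟨ht0, ht1⟩ := pow_bounds n hv0 h1
  have e : v ^ (2 * (n + 1)) = v ^ (2 * n) * v ^ 2 := by rw [← pow_add]; congr 1
  rw [e]
  generalize v ^ (2 * n) = t at *
  have h1' : (0 : ℝ) < 1 + t * v := by positivity
  have h2 : (0 : ℝ) < 1 + t * v ^ 2 := by positivity
  have h3 : (0 : ℝ) < 1 + t := by positivity
  have htv : t * v < 1 := by nlinarith
  have htv0 : 0 < t * v := by positivity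
  -- three pieces
  set x := 1 / (1 + t) with hx
  set x' := 1 / (1 + t * v ^ 2) with hx'
  have hD : x' - x = t * (1 - v ^ 2) / ((1 + t) * (1 + t * v ^ 2)) := by
    rw [hx, hx']; field_simp; ring
  have hD0 : 0 ≤ x' - x := by
    rw [hD]; apply div_nonneg (mul_nonneg ht0.le hv2.le); positivity
  -- the first piece
  have a1 : 8 / 9 * (t - t * v ^ 2) - 2 / 9 * (t ^ 2 - t ^ 2 * v ^ 4) ≤
      (1 - v ^ 2) * (t / (1 + t * v)) := by
    have b1 : 8 / 9 - 4 / 9 * (t * v) ≤ 1 / (1 + t * v) := by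
      rw [le_div_iff₀ h1']
      nlinarith [sq_nonneg (2 * (t * v) - 1)]
    have b2 : t ^ 2 * v * (1 - v ^ 2) ≤ 1 / 2 * (t ^ 2 - t ^ 2 * v ^ 4) := by
      have : 0 ≤ t ^ 2 * (1 - v ^ 2) * (1 - v) ^ 2 := by positivity
      nlinarith
    have b3 : (1 - v ^ 2) * (t / (1 + t * v)) = (1 - v ^ 2) * t * (1 / (1 + t * v)) := by ring
    rw [b3]
    have b4 := mul_le_mul_of_nonneg_left b1 (mul_nonneg hv2.le ht0.le)
    nlinarith
  -- the error term
  have a2 : 2 / (1 + t * v) - x - x' = t * (1 - v) ^ 2 * (1 - t * v) /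
      ((1 + t * v) * (1 + t) * (1 + t * v ^ 2)) := by
    rw [hx, hx']; field_simp; ring
  have a3 : 2 / (1 + t * v) - x - x' ≤ 1 / 8 := by
    rw [a2, div_le_iff₀ (by positivity)]
    have c1 : (1 + t * v) ^ 2 ≤ (1 + t) * (1 + t * v ^ 2) := by nlinarith [sq_nonneg (1 - v)]
    have c2 : 1 ≤ (1 + t * v) * ((1 + t) * (1 + t * v ^ 2)) := by nlinarith
    have c3 : (1 - v) ^ 2 ≤ v / 2 := by nlinarith
    have c4 : t * v * (1 - t * v) ≤ 1 / 4 := by nlinarith [sq_nonneg (2 * (t * v) - 1)]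
    have c5 : 0 ≤ t * (1 - t * v) := mul_nonneg ht0.le (by linarith)
    have c6 : t * (1 - v) ^ 2 * (1 - t * v) ≤ 1 / 8 := by nlinarith
    nlinarith
  have a4 : 2 * t * (1 - t * v) / ((1 + t * v) * (1 + t) * (1 + t * v ^ 2)) * (1 - v ^ 2) =
      2 * ((2 / (1 + t * v) - 1) * (x' - x)) := by
    rw [hD]; field_simp; ring
  have a5 : (2 / (1 + t * v) - 1) * (x' - x) ≤ (x' ^ 2 - x') - (x ^ 2 - x) + 1 / 8 * (x' - x) := by
    have : (2 / (1 + t * v) - 1) * (x' - x) =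
      (x' ^ 2 - x') - (x ^ 2 - x) + (2 / (1 + t * v) - x - x') * (x' - x) := by ring
    rw [this]
    nlinarith
  have a6 : (1 - v ^ 2) * (t / (1 + t * v) - 2 * t * (1 - t * v) /
      ((1 + t * v) * (1 + t) * (1 + t * v ^ 2))) =
      (1 - v ^ 2) * (t / (1 + t * v)) - 2 * ((2 / (1 + t * v) - 1) * (x' - x)) := by
    rw [← a4]; ring
  rw [a6]
  unfold Q
  rw [← hx, ← hx']
  nlinarith

lemma tendsto_pow_two {v : ℝ} (h0 : 0 < v) (h1 : v < 1) :
    Tendsto (fun N : ℕ => v ^ (2 * N)) atTop (𝓝 0) := by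
  have : Tendsto (fun N : ℕ => (v ^ 2) ^ N) atTop (𝓝 0) :=
    tendsto_pow_atTop_nhds_zero_of_lt_one (by positivity) (by nlinarith)
  refine this.congr fun N => ?_
  rw [← pow_mul]

lemma tendsto_p {v : ℝ} (h0 : 0 < v) (h1 : v < 1) :
    Tendsto (fun N : ℕ => p N v) atTop (𝓝 0) := by
  have a : Tendsto (fun N : ℕ => (N : ℝ) * (v ^ 2) ^ N) atTop (𝓝 0) :=
    tendsto_self_mul_const_pow_of_lt_one (by positivity) (by nlinarith)
  have b : Tendsto (fun N : ℕ => 2 * ((N : ℝ) * (v ^ 2) ^ N)) atTop (𝓝 0) := by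
    simpa using a.const_mul 2
  refine squeeze_zero (fun N => ?_) (fun N => ?_) b
  · unfold p; positivity
  · unfold p
    have ht := pow_bounds N h0 h1
    rw [← pow_mul]
    refine (div_le_self (by positivity) (by linarith)).trans (le_of_eq (by ring))

/-- If the partial sums of `M_n` are bounded below by a sequence which tends to `c > 0`, then the
sum of the derivatives is negative. -/
lemma sum_neg {v c : ℝ} (h0 : 0 < v) (h1 : v < 1) (hc : 0 < c) (B : ℕ → ℝ)
    (hB : Tendsto B atTop (𝓝 c))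
    (hM : ∀ N, B N ≤ ∑ n ∈ Finset.range N, M n v (v ^ (2 * n))) :
    ∑' n, T' n v < 0 := by
  have hs := (hasDerivAt_F h0 h1).2
  have ht : Tendsto (fun N => ∑ n ∈ Finset.range N, T' n v) atTop (𝓝 (∑' n, T' n v)) :=
    hs.hasSum.tendsto_sum_nat
  have hle : ∀ N, ∑ n ∈ Finset.range N, T' n v ≤ -((1 - v) ^ 2 * B N) / v := by
    intro N
    rw [le_div_iff₀ h0, mul_comm, Finset.mul_sum]
    have : ∑ n ∈ Finset.range N, v * T' n v =
        (p 0 v - p N v) - (1 - v) ^ 2 * ∑ n ∈ Finset.range N, M n v (v ^ (2 * n)) := by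
      rw [Finset.mul_sum, ← Finset.sum_range_sub' (fun n => p n v) N, ← Finset.sum_sub_distrib]
      exact Finset.sum_congr rfl fun n _ => T'_eq n h0
    rw [this]
    have hp : 0 ≤ p N v := by unfold p; positivity
    have hp0 : p 0 v = 0 := by simp [p]
    have := mul_le_mul_of_nonneg_left (hM N) (sq_nonneg (1 - v))
    linarith
  have hlim : Tendsto (fun N => -((1 - v) ^ 2 * B N) / v) atTop (𝓝 (-((1 - v) ^ 2 * c) / v)) :=
    ((hB.const_mul _).neg).div_const _
  have := le_of_tendsto_of_tendsto' ht hlim hle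
  refine this.trans_lt ?_
  apply div_neg_of_neg_of_pos _ h0
  have : 0 < (1 - v) ^ 2 * c := mul_pos (by apply sq_pos_of_pos; linarith) hc
  linarith

lemma deriv_neg {v : ℝ} (h0 : 0 < v) (h1 : v < 1) : ∑' n, T' n v < 0 := by
  rcases le_total v (1 / 2) with hv | hv
  · -- small `v`
    have hv2 : 0 < 1 - v ^ 2 := by nlinarith
    have hc : 0 < v / (1 + v ^ 2) - v ^ 2 / (1 - v ^ 2) := by
      rw [sub_pos, div_lt_div_iff₀ hv2 (by positivity)]
      nlinarith [mul_pos h0 h0, mul_pos (mul_pos h0 h0) h0]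
    refine sum_neg h0 h1 hc (fun N => if N = 0 then 0 else v / (1 + v ^ 2) - v ^ 2 / (1 - v ^ 2))
      ?_ ?_
    · refine tendsto_const_nhds.congr' ?_
      filter_upwards [eventually_gt_atTop 0] with N hN
      rw [if_neg hN.ne']
    · intro N
      rcases Nat.eq_zero_or_pos N with rfl | hN
      · simp
      · obtain ⟨K, rfl⟩ : ∃ K, N = K + 1 := ⟨N - 1, by omega⟩
        rw [if_neg (by omega), Finset.sum_range_succ', M_zero h0]
        have h2 : -(v ^ 2 / (1 - v ^ 2)) ≤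
            ∑ n ∈ Finset.range K, M (n + 1) v (v ^ (2 * (n + 1))) := by
          have h3 : ∑ n ∈ Finset.range K, (v ^ 2 / (1 - v ^ 2) * (v ^ (2 * (n + 1)) - v ^ (2 * n))) ≤
              ∑ n ∈ Finset.range K, M (n + 1) v (v ^ (2 * (n + 1))) := by
            apply Finset.sum_le_sum
            intro n _
            refine le_trans (le_of_eq ?_) (M_ge_neg (n + 1) h0 h1)
            have e : v ^ (2 * (n + 1)) = v ^ (2 * n) * v ^ 2 := by rw [← pow_add]; congr 1
            rw [e]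
            field_simp
            ring
          refine le_trans ?_ h3
          rw [← Finset.mul_sum, Finset.sum_range_sub (fun n => v ^ (2 * n)) K]
          have : 0 < v ^ (2 * K) := by positivity
          have h5 : 0 < v ^ 2 / (1 - v ^ 2) := by positivity
          simp only [mul_zero, pow_zero]
          nlinarith
        linarith
  · have hv2 : 0 < 1 - v ^ 2 := by nlinarith
    have hc : 0 < (1 / 24) / (1 - v ^ 2) := by positivity
    refine sum_neg h0 h1 hc (fun N => (Q 1 - Q (v ^ (2 * N))) / (1 - v ^ 2)) ?_ ?_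
    · have h2 : Tendsto (fun N : ℕ => Q (v ^ (2 * N))) atTop (𝓝 (Q 0)) := by
        have hcont : ContinuousAt Q 0 := by
          unfold Q
          have : ContinuousAt (fun t : ℝ => 1 / (1 + t)) 0 := by
            apply ContinuousAt.div continuousAt_const (by fun_prop) (by norm_num)
          fun_prop (disch := norm_num)
        exact hcont.tendsto.comp (tendsto_pow_two h0 h1)
      have h3 := (h2.const_sub (Q 1)).div_const (1 - v ^ 2)
      convert h3 using 2
      unfold Q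
      norm_num
    · intro N
      rw [div_le_iff₀ hv2, Finset.sum_mul]
      have h2 := Finset.sum_range_sub' (fun n => Q (v ^ (2 * n))) N
      simp only [mul_zero, pow_zero] at h2
      rw [← h2]
      refine Finset.sum_le_sum fun n _ => ?_
      rw [mul_comm (M n v (v ^ (2 * n)))]
      exact M_ge_Q n hv h1

lemma F_anti : StrictAntiOn F (Ioo 0 1) := by
  apply strictAntiOn_of_deriv_neg (convex_Ioo 0 1)
  · intro v hv
    exact (hasDerivAt_F hv.1 hv.2).1.continuousAt.continuousWithinAt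
  · intro v hv
    rw [interior_Ioo] at hv
    rw [(hasDerivAt_F hv.1 hv.2).1.deriv]
    exact deriv_neg hv.1 hv.2

/-- `S` in the variable `v = exp (-y)` -/
lemma S₀_eq {r : ℝ} (hr : 1 < r) : S₀ r = F (Real.exp (-Real.arcosh r)) := by
  have hy : 0 < Real.arcosh r := Real.arcosh_pos hr
  unfold S₀
  generalize Real.arcosh r = y at hy
  set v := Real.exp (-y) with hv
  have h0 : 0 < v := Real.exp_pos _
  have h1 : v < 1 := by rw [hv, Real.exp_lt_one_iff]; linarith
  -- the double series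
  set g : ℕ × ℕ → ℝ := fun x => (-1) ^ x.1 * (1 - v ^ 2) * (v ^ x.1 * (v ^ (2 * (x.1 + 1))) ^ x.2)
    with hg
  have hgs : Summable g := by
    have hb : Summable fun x : ℕ × ℕ => v ^ x.1 * (v ^ 2) ^ x.2 := by
      have a : Summable fun n : ℕ => v ^ n := summable_geometric_of_lt_one h0.le h1
      have b : Summable fun n : ℕ => (v ^ 2) ^ n :=
        summable_geometric_of_lt_one (by positivity) (by nlinarith)
      exact a.mul_of_nonneg b (fun _ => by positivity) (fun _ => by positivity)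
    refine Summable.of_norm_bounded hb ?_
    rintro ⟨k, n⟩
    simp only [hg, norm_mul, norm_pow, norm_neg, norm_one, one_pow, one_mul, Real.norm_eq_abs]
    rw [abs_of_pos h0, abs_of_nonneg (by nlinarith : (0 : ℝ) ≤ 1 - v ^ 2)]
    have c1 : (v ^ (2 * (k + 1))) ^ n ≤ (v ^ 2) ^ n := by
      apply pow_le_pow_left₀ (by positivity)
      exact pow_le_pow_of_le_one h0.le h1.le (by omega)
    have c2 : v ^ k * (v ^ (2 * (k + 1))) ^ n ≤ v ^ k * (v ^ 2) ^ n :=
      mul_le_mul_of_nonneg_left c1 (by positivity)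
    have c3 : 0 ≤ v ^ k * (v ^ (2 * (k + 1))) ^ n := by positivity
    nlinarith [sq_nonneg v]
  have hcomm : ∑' k : ℕ, ∑' n : ℕ, g (k, n) = ∑' n : ℕ, ∑' k : ℕ, g (k, n) :=
    (Summable.tsum_comm (f := fun k n => g (k, n)) hgs).symm
  have e1 : ∀ k : ℕ, ∑' n : ℕ, g (k, n) =
      (-1 : ℝ) ^ k * (Real.sinh y / Real.sinh ((k + 1 : ℕ) * y)) := by
    intro k
    simp only [hg]
    rw [tsum_mul_left, tsum_mul_left, tsum_geometric_of_lt_one (by positivity)
      (pow_lt_one₀ h0.le h1 (by omega))]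
    rw [Real.sinh_eq, Real.sinh_eq]
    have ev : Real.exp y = v⁻¹ := by rw [hv, ← Real.exp_neg, neg_neg]
    have ek : Real.exp ((k + 1 : ℕ) * y) = (v ^ (k + 1))⁻¹ := by
      rw [Real.exp_nat_mul, ev, inv_pow]
    have ek' : Real.exp (-((k + 1 : ℕ) * y)) = v ^ (k + 1) := by
      rw [Real.exp_neg, ek, inv_inv]
    rw [ek, ek', ev, ← hv]
    have hp : 0 < v ^ (k + 1) := by positivity
    have hp1 : v ^ (k + 1) < 1 := pow_lt_one₀ h0.le h1 (by omega)
    have e2 : v ^ (2 * (k + 1)) = (v ^ (k + 1)) ^ 2 := by rw [← pow_mul]; congr 1; ring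
    rw [e2]
    have e3 : v ^ k = v ^ (k + 1) / v := by rw [pow_succ]; field_simp
    rw [e3]
    generalize v ^ (k + 1) = w at *
    have h5 : (1 : ℝ) - w ^ 2 ≠ 0 := by nlinarith
    have h6 : w⁻¹ - w ≠ 0 := by
      have : w⁻¹ - w = (1 - w ^ 2) / w := by field_simp
      rw [this]
      exact div_ne_zero h5 hp.ne'
    have h7 : w⁻¹ - w = (1 - w ^ 2) / w := by field_simp
    rw [h7]
    field_simp
  have e2 : ∀ n : ℕ, ∑' k : ℕ, g (k, n) = T n v := by
    intro n
    have e3 : ∀ k : ℕ, g (k, n) = (1 - v ^ 2) * v ^ (2 * n) * (-(v ^ (2 * n) * v)) ^ k := by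
      intro k
      simp only [hg]
      have : (v ^ (2 * (k + 1))) ^ n = v ^ (2 * n) * (v ^ (2 * n)) ^ k := by
        rw [← pow_mul, ← pow_mul, ← pow_add]; congr 1; ring
      rw [this, neg_pow (v ^ (2 * n) * v) k, mul_pow]
      ring
    rw [tsum_congr e3, tsum_mul_left]
    have hb := pow_bounds n h0 h1
    rw [tsum_geometric_of_abs_lt_one (by
      rw [abs_neg, abs_of_pos (mul_pos hb.1 h0)]; nlinarith)]
    unfold T
    rw [sub_neg_eq_add]
    ring
  calc ∑' k : ℕ, (-1 : ℝ) ^ k * (Real.sinh y / Real.sinh ((k + 1 : ℕ) * y))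
      = ∑' k : ℕ, ∑' n : ℕ, g (k, n) := tsum_congr fun k => (e1 k).symm
    _ = ∑' n : ℕ, ∑' k : ℕ, g (k, n) := hcomm
    _ = ∑' n : ℕ, T n v := tsum_congr e2
    _ = F v := rfl

lemma S₀_mono : StrictMonoOn S₀ (Ioi 1) := by
  intro r hr r' hr' h
  have hr1 : 1 < r := hr
  have hr2 : 1 < r' := hr'
  rw [S₀_eq hr1, S₀_eq hr2]
  have hy : 0 < Real.arcosh r := Real.arcosh_pos hr1
  have hy' : 0 < Real.arcosh r' := Real.arcosh_pos hr2
  have hlt : Real.arcosh r < Real.arcosh r' :=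
    (Real.arcosh_lt_arcosh (by linarith) (by linarith)).2 h
  apply F_anti
  · exact ⟨Real.exp_pos _, by rw [Real.exp_lt_one_iff]; linarith⟩
  · exact ⟨Real.exp_pos _, by rw [Real.exp_lt_one_iff]; linarith⟩
  · exact Real.exp_lt_exp.2 (by linarith)

lemma S₀_tendsto : Tendsto S₀ (𝓝[>] (1 : ℝ)) (𝓝 (sInf (S₀ '' Ioi 1))) := by
  apply S₀_mono.monotoneOn.tendsto_nhdsGT
  refine ⟨0, ?_⟩
  rintro _ ⟨r, hr, rfl⟩
  rw [S₀_eq hr]
  have hy : 0 < Real.arcosh r := Real.arcosh_pos hr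
  apply tsum_nonneg
  intro n
  have h0 : 0 < Real.exp (-Real.arcosh r) := Real.exp_pos _
  have h1 : Real.exp (-Real.arcosh r) < 1 := by rw [Real.exp_lt_one_iff]; linarith
  unfold T
  apply div_nonneg
  · exact mul_nonneg (by positivity) (by nlinarith)
  · positivity

/-- `S` is strictly increasing on `[1, ∞)`; for `r > 1` the series `S(r)` converges absolutely, and
`S(1)` is the limit of `S(r)` as `r → 1+`. -/
theorem result :
    (∀ r : ℝ, 1 < r → Real.cosh (Real.arcosh r) = r ∧ 0 < Real.arcosh r ∧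
      Summable (fun k : ℕ => (-1 : ℝ) ^ k *
        (Real.sinh (Real.arcosh r) / Real.sinh ((k + 1 : ℕ) * Real.arcosh r)))) ∧
    Tendsto S (𝓝[>] (1 : ℝ)) (𝓝 (S 1)) ∧
    ∀ r r' : ℝ, 1 ≤ r → r < r' → S r < S r' := by
  have hS1 : S 1 = sInf (S₀ '' Ioi 1) := by
    unfold S
    rw [if_neg (lt_irrefl _)]
    exact S₀_tendsto.limUnder_eq
  refine ⟨?_, ?_, ?_⟩
  · intro r hr
    refine ⟨Real.cosh_arcosh hr.le, Real.arcosh_pos hr, ?_⟩
    have hy : 0 < Real.arcosh r := Real.arcosh_pos hr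
    generalize Real.arcosh r = y at hy
    have h0 : 0 < Real.exp (-y) := Real.exp_pos _
    have h1 : Real.exp (-y) < 1 := by rw [Real.exp_lt_one_iff]; linarith
    have hg : Summable fun k : ℕ => Real.exp (-y) ^ k := summable_geometric_of_lt_one h0.le h1
    refine Summable.of_norm_bounded hg ?_
    intro k
    rw [norm_mul, norm_pow, norm_neg, norm_one, one_pow, one_mul, Real.norm_eq_abs]
    have hs : 0 < Real.sinh y := Real.sinh_pos_iff.2 hy
    have hk : 0 < Real.sinh ((k + 1 : ℕ) * y) := by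
      apply Real.sinh_pos_iff.2
      positivity
    rw [abs_of_pos (div_pos hs hk), div_le_iff₀ hk]
    -- `sinh y ≤ e^{-ky} sinh((k+1)y)`
    rw [Real.sinh_eq, Real.sinh_eq, ← Real.exp_nat_mul]
    have e1 : Real.exp ((k : ℝ) * -y) * ((Real.exp ((k + 1 : ℕ) * y) -
        Real.exp (-((k + 1 : ℕ) * y))) / 2) =
        (Real.exp y - Real.exp (-((2 * k + 1 : ℕ) * y))) / 2 := by
      rw [mul_div_assoc', mul_sub, ← Real.exp_add, ← Real.exp_add]
      congr 3
      · push_cast; ring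
      · push_cast; ring
    rw [e1]
    have : Real.exp (-((2 * k + 1 : ℕ) * y)) ≤ Real.exp (-y) := by
      apply Real.exp_le_exp.2
      push_cast
      have : 0 ≤ (k : ℝ) * y := by positivity
      nlinarith
    linarith
  · rw [hS1]
    refine S₀_tendsto.congr' ?_
    filter_upwards [self_mem_nhdsWithin] with r hr
    have hr' : 1 < r := hr
    unfold S
    rw [if_pos hr']
  · intro r r' h1 h2
    have h3 : 1 < r' := h1.trans_lt h2
    have e2 : S r' = S₀ r' := by unfold S; rw [if_pos h3]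
    rcases h1.eq_or_lt with rfl | h4
    · rw [e2, hS1]
      obtain ⟨m, hm1, hm2⟩ := exists_between h3
      have hbdd : BddBelow (S₀ '' Ioi 1) := by
        refine ⟨0, ?_⟩
        rintro _ ⟨r, hr, rfl⟩
        rw [S₀_eq hr]
        have hy : 0 < Real.arcosh r := Real.arcosh_pos hr
        apply tsum_nonneg
        intro n
        have h0 : 0 < Real.exp (-Real.arcosh r) := Real.exp_pos _
        have h1 : Real.exp (-Real.arcosh r) < 1 := by rw [Real.exp_lt_one_iff]; linarith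
        unfold T
        apply div_nonneg
        · exact mul_nonneg (by positivity) (by nlinarith)
        · positivity
      have : sInf (S₀ '' Ioi 1) ≤ S₀ m := csInf_le hbdd ⟨m, hm1, rfl⟩
      exact this.trans_lt (S₀_mono hm1 h3 hm2)
    · have e1 : S r = S₀ r := by unfold S; rw [if_pos h4]
      rw [e1, e2]
      exact S₀_mono h4 h3 h2

end Pool.Agent.Results.MP_913ab3_an.Monotone
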